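import Pool.Agent.Helper40.AC.Stmts

/-!
Project AC, packet P17: the trace of the idempotent of a module acting through a free module.
-/

open scoped TensorProduct

namespace Pool.Agent.Helper59.AC

open Pool.Agent.Helper40.AC

theorem trfact_ok : S_TRFACT := by
  intro P B _ _ _ S _ _ N m s e hs i α β hβα
  have h1 : algebraMap P B (LinearMap.toMatrix' (α ∘ₗ β)).trace
      = LinearMap.trace B (B ⊗[P] (Fin m → P)) ((α ∘ₗ β).baseChange B) := by
    rw [LinearMap.trace_baseChange, LinearMap.trace_eq_matrix_trace P (Pi.basisFun P (Fin m)),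
      LinearMap.toMatrix_eq_toMatrix']
  have h2 : s.trace = LinearMap.trace B (Fin N → B) (Matrix.toLin' s) := by
    rw [LinearMap.trace_eq_matrix_trace B (Pi.basisFun B (Fin N)),
      LinearMap.toMatrix_eq_toMatrix', LinearMap.toMatrix'_toLin']
  have hidem : ∀ x : LinearMap.range (Matrix.toLin' s), Matrix.toLin' s (x : Fin N → B) = x := by
    rintro ⟨x, y, rfl⟩
    show Matrix.toLin' s (Matrix.toLin' s y) = Matrix.toLin' s y
    rw [← LinearMap.comp_apply, ← Matrix.toLin'_mul, hs]
  set f : (Fin N → B) →ₗ[B] B ⊗[P] (Fin m → P) :=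
    α.baseChange B ∘ₗ i.symm.toLinearMap ∘ₗ (Matrix.toLin' s).rangeRestrict with hf
  set g : B ⊗[P] (Fin m → P) →ₗ[B] (Fin N → B) :=
    (LinearMap.range (Matrix.toLin' s)).subtype ∘ₗ i.toLinearMap ∘ₗ β.baseChange B with hg
  have hfg : f ∘ₗ g = (α ∘ₗ β).baseChange B := by
    rw [LinearMap.baseChange_comp]
    refine LinearMap.ext fun x => ?_
    show α.baseChange B (i.symm ((Matrix.toLin' s).rangeRestrict
      ((i (β.baseChange B x) : LinearMap.range (Matrix.toLin' s)) : Fin N → B)))
      = α.baseChange B (β.baseChange B x)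
    have : (Matrix.toLin' s).rangeRestrict
      ((i (β.baseChange B x) : LinearMap.range (Matrix.toLin' s)) : Fin N → B)
      = i (β.baseChange B x) := Subtype.ext (hidem _)
    rw [this, LinearEquiv.symm_apply_apply]
  have hgf : g ∘ₗ f = algebraMap P B e • Matrix.toLin' s := by
    have hba : β.baseChange B ∘ₗ α.baseChange B
        = algebraMap P B e • (LinearMap.id : B ⊗[P] S →ₗ[B] B ⊗[P] S) := by
      rw [← LinearMap.baseChange_comp, hβα]
      ext x
      simp
    have hba' : ∀ y, β.baseChange B (α.baseChange B y) = algebraMap P B e • y := fun y => by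
      have := LinearMap.congr_fun hba y
      simpa using this
    refine LinearMap.ext fun x => ?_
    show ((i (β.baseChange B (α.baseChange B (i.symm ((Matrix.toLin' s).rangeRestrict x)))) :
      LinearMap.range (Matrix.toLin' s)) : Fin N → B) = algebraMap P B e • Matrix.toLin' s x
    rw [hba', map_smul, LinearEquiv.apply_symm_apply]
    rfl
  rw [h1, ← hfg, LinearMap.trace_comp_comm', hgf, map_smul, ← h2, smul_eq_mul]

end Pool.Agent.Helper59.AC
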